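import Pool.Agent.Lib.ManeD.PhaseR

/-!
Problem MP_3e2995_an, for the torus `M = T^n`, `n ≥ 3` (every `k ≥ 2`): a phase rule for a `C^k`-generic Tonelli
Lagrangian, in the sense of Mañé.  If the classes `c 0, …, c p ∈ H^1(T^n, R) = R^n` are affinely independent,
`ν 0, …, ν r` and `μ 0, …, μ j` (`j ≥ 1`) are minimizing for all of them, the rotation vectors of the `ν l` are
affinely independent and the `μ a` are affinely independent measures with the same rotation vector `h`, then
`p + r + 2 j < n`.

In particular, if there are two `(L, h)`-minimizing measures then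
`dim ∂β(h) + dim F(h) + 2 dim M_h < n`, where `∂β(h)` is the set of `c` for which the `(L, h)`-minimizing measures are
`(L, c)`-minimizing, `F(h)` the set of rotation vectors of the measures minimizing for all these `c`, and `M_h` the
set of `(L, h)`-minimizing measures.  For `n = 3`: `∂β(h)` and `F(h)` are points, `M_h` has dimension one.

All definitions are in `Pool/Agent/Lib/Mane/Defs.lean` and `Pool/Agent/Lib/ManeD/DefsC.lean` (`IsCMin`).
-/

open Set Filter Topology MeasureTheory
open Pool.Agent.Lib.Mane Pool.Agent.Lib.ManeD

namespace Pool.Agent.Results.MP_3e2995_an.PhaseRule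

/-- **Result.** Let `k ≥ 2`, `n ≥ 3` and let `L` be a Tonelli Lagrangian of class `C^k` on `T T^n × T`.  There is a
residual set of potentials `f ∈ C^k(T^n × T)` such that, if `L + f` is Tonelli: whenever `p + 1` affinely
independent cohomology classes `c i`, measures `ν 0, …, ν r` with affinely independent rotation vectors, and
affinely independent measures `μ 0, …, μ j` (`j ≥ 1`) with a common rotation vector `h` are given, and all the
`ν l` and `μ a` are `(L + f, c i)`-minimizing for all `i`, then `p + r + 2 j < n`. -/
theorem result (k n : ℕ) (hk : 2 ≤ k) (_hn : 3 ≤ n) (L : Phase n → ℝ) (hL : IsTonelli L) (_hLk : IsCk k L) :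
    ∀ᶠ f in residual (Pot n k), IsTonelli (addPot L f.1) →
      ∀ (p r j : ℕ) (c : Fin (p + 1) → E n) (ν : Fin (r + 1) → ProbabilityMeasure (Phase n))
        (μ : Fin (j + 1) → ProbabilityMeasure (Phase n)) (h : E n), 1 ≤ j →
        (∀ i l, IsCMin (addPot L f.1) (c i) (ν l)) → (∀ i a, IsCMin (addPot L f.1) (c i) (μ a)) →
        (∀ a, rot (μ a) = h) → AffineIndependent ℝ c → AffineIndependent ℝ (fun l => rot (ν l)) →
        AffineIndependent ℝ (fun a => (μ a : Measure (Phase n)).toSignedMeasure) → p + r + 2 * j < n :=
  phase_rule (by omega) hL.isC2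

end Pool.Agent.Results.MP_3e2995_an.PhaseRule
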