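import Pool.Agent.Lib.ManeD.GenJ

/-!
Problem MP_3e2995_an, for the torus `M = T^n` (every `k ≥ 2`): for a `C^k`-generic Tonelli Lagrangian, in the
sense of Mañé, and every homology class `h ∈ H_1(T^n, R) = R^n`, `n ≥ 3`, the set of `(L, h)`-minimizing measures
has affine dimension `< n / 2` (the case `S i = R^n`, `m = 0`, `n ≤ 2 j` of the theorem below).  More generally,
given countably many affine subspaces, the set of those `h` in one of them for which this dimension is at least
`j ≥ 2` has vanishing Hausdorff measure in dimension `dim (S i) - 2 j`, and is empty if `dim (S i) ≤ 2 j`.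

All definitions are in `Pool/Agent/Lib/Mane/Defs.lean` and `Pool/Agent/Lib/ManeD/Defs.lean` (`DimGE`).
-/

open Set Filter Topology MeasureTheory
open Pool.Agent.Lib.Mane Pool.Agent.Lib.ManeD

namespace Pool.Agent.Results.MP_3e2995_an.TorusDim

/-- **Result.** Let `k ≥ 2`, let `S 0, S 1, …` be affine subspaces of `H_1(T^n, R) = R^n` and let `L` be
a Tonelli Lagrangian of class `C^k` on `T T^n × T`.  There is a residual set of potentials
`f ∈ C^k(T^n × T)` such that, if `L + f` is Tonelli, then for all `i`, all `j ≥ 2` and all `m ≥ 0` with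
`dim (S i) ≤ m + 2 j`, the set of `h ∈ S i` for which there are `j + 1` affinely independent
`(L + f, h)`-minimizing measures has `m`-dimensional Hausdorff measure zero (is empty if `m = 0`). -/
theorem result (k n : ℕ) (hk : 2 ≤ k) (S : ℕ → AffineSubspace ℝ (E n))
    (L : Phase n → ℝ) (hL : IsTonelli L) (_hLk : IsCk k L) :
    ∀ᶠ f in residual (Pot n k), IsTonelli (addPot L f.1) →
      ∀ i j m : ℕ, 2 ≤ j → Module.finrank ℝ (S i).direction ≤ m + 2 * j →
        Measure.hausdorffMeasure (m : ℝ) {h | h ∈ S i ∧ DimGE (addPot L f.1) h j} = 0 := by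
  filter_upwards [generic_affine_familyJ (by omega) hL.isC2 S] with f hf hT i j m hj hd
  exact hf hT i j m (by omega) hd

end Pool.Agent.Results.MP_3e2995_an.TorusDim
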