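import Pool.Agent.Lib.Mane.Generic

/-!
Problem MP_3e2995_an, for the torus `M = T^n`, `n ≥ 3` (every `k ≥ 2`): given countably many affine
subspaces of `H_1(T^n, R) = R^n`, for a `C^k`-generic Tonelli Lagrangian, in the sense of Mañé, there
is on each of these subspaces, of dimension `m + 2`, exactly one `(L, h)`-minimizing measure for
every `h` outside a set of vanishing `m`-dimensional Hausdorff measure.  In particular (`m = 0`) there is exactly
one for every `h` in one of countably many given planes, e.g. the rational ones, and (`m = n - 2`) for every `h`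
outside a set of vanishing `(n - 2)`-dimensional Hausdorff measure.

All definitions (`Phase`, `IsCk`, `IsTonelli`, `IsInv`, `rot`, `action`, `IsHomMin`, `UniqueMin`, `BadSet`, `Pot`,
`addPot`) are in `Pool/Agent/Lib/Mane/Defs.lean`.
-/

open Set Filter Topology MeasureTheory
open Pool.Agent.Lib.Mane

namespace Pool.Agent.Results.MP_3e2995_an.TorusHigher

/-- **Result.** Let `k ≥ 2`, `n ≥ 3`, let `S 0, S 1, …` be affine subspaces of `H_1(T^n, R) = R^n` and let `L` be
a Tonelli Lagrangian of class `C^k` on `T T^n × T`.  There is a residual set of potentials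
`f ∈ C^k(T^n × T)` such that, if `L + f` is Tonelli, then for every `i` for which `S i` has dimension
`m + 2`, the set of `h ∈ S i` for which the `(L + f, h)`-minimizing measure is not unique has
`m`-dimensional Hausdorff measure zero. -/
theorem result (k n : ℕ) (hk : 2 ≤ k) (_hn : 3 ≤ n) (S : ℕ → AffineSubspace ℝ (E n))
    (L : Phase n → ℝ) (hL : IsTonelli L) (_hLk : IsCk k L) :
    ∀ᶠ f in residual (Pot n k), IsTonelli (addPot L f.1) →
      ∀ i m : ℕ, Module.finrank ℝ (S i).direction = m + 2 →
        Measure.hausdorffMeasure (m : ℝ) (BadSet (addPot L f.1) (S i)) = 0 :=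
  generic_affine_family (by omega) hL.isC2 S

end Pool.Agent.Results.MP_3e2995_an.TorusHigher
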