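import Pool.Agent.Lib.Mane.Generic

/-!
Problem MP_3e2995_an, Q1 for the two-dimensional torus `M = T^2` (every `k ≥ 2`): for a `C^k`-generic
Tonelli Lagrangian, in the sense of Mañé, there is exactly one `(L, h)`-minimizing measure for every
homology class `h`.

All definitions (`Phase`, `IsCk`, `IsTonelli`, `IsInv`, `rot`, `action`, `IsHomMin`, `Pot`, `addPot`) are in
`Pool/Agent/Lib/Mane/Defs.lean`.
-/

open Set Filter Topology MeasureTheory
open Pool.Agent.Lib.Mane

namespace Pool.Agent.Results.MP_3e2995_an.TorusTwo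

/-- **Result.** Let `k ≥ 2` and let `L` be a Tonelli Lagrangian of class `C^k` on `T T^2 × T`.  There is
a residual set of potentials `f ∈ C^k(T^2 × T)` such that, if `L + f` is Tonelli, then for every
homology class `h ∈ H_1(T^2, R) = R^2` there is exactly one `(L + f, h)`-minimizing measure. -/
theorem result (k : ℕ) (hk : 2 ≤ k) (L : Phase 2 → ℝ) (hL : IsTonelli L) (_hLk : IsCk k L) :
    ∀ᶠ f in residual (Pot 2 k), IsTonelli (addPot L f.1) →
      ∀ h : E 2, ∃! μ : ProbabilityMeasure (Phase 2), IsHomMin (addPot L f.1) h μ := by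
  have hmain := generic_affine (m := 0) (k := k) (by omega) hL.isC2 (⊤ : AffineSubspace ℝ (E 2))
    (by rw [AffineSubspace.direction_top, finrank_top]; simp)
  filter_upwards [hmain] with f hf hT h
  have h0 := hf hT
  rw [Nat.cast_zero] at h0
  by_contra hcon
  have hsub : ({h} : Set (E 2)) ⊆ BadSet (addPot L f.1) ⊤ := by
    rintro x rfl
    exact ⟨AffineSubspace.mem_top ℝ _ x, hcon⟩
  have h1 := measure_mono_null hsub h0
  rw [Measure.hausdorffMeasure_zero_singleton] at h1
  exact one_ne_zero h1

end Pool.Agent.Results.MP_3e2995_an.TorusTwo
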